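import Mathlib
import Pool.Agent.N546.PN.Main
import Pool.Agent.N718.DC.Stm4
import Pool.Agent.N712.PN.Padn

/-!
# Weak approximation for the rational numbers (helper546)
-/

set_option autoImplicit false
set_option linter.all false

namespace Pool.Agent.N546.PW

open Finset

lemma norm_of_dvd' {p : ℕ} [Fact p.Prime] {N : ℕ} {z : ℤ} (h : (p : ℤ) ^ N ∣ z) :
    ‖(z : ℚ_[p])‖ ≤ ((p : ℝ) ^ N)⁻¹ := by
  have h1 := (Padic.norm_int_le_pow_iff_dvd (p := p) z N).2 (by exact_mod_cast h)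
  rw [zpow_neg, zpow_natCast] at h1
  exact h1

lemma approx_Q (T : Finset Nat.Primes) (x : (p : Nat.Primes) → ℚ_[(p : ℕ)]) (δ : ℝ) (hδ : 0 < δ) :
    ∃ u : ℚ, ∀ p ∈ T, ‖(u : ℚ_[(p : ℕ)]) - x p‖ < δ := by
  classical
  have h1 : ∀ p : Nat.Primes, ∃ N : ℕ, ‖x p‖ < ((p : ℕ) : ℝ) ^ N := fun p =>
    pow_unbounded_of_one_lt _ (by exact_mod_cast p.2.one_lt)
  choose N hN using h1
  set D : ℤ := ∏ p ∈ T, ((p : ℕ) : ℤ) ^ (N p) with hD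
  have hD0 : D ≠ 0 := Finset.prod_ne_zero_iff.2 fun p _ =>
    pow_ne_zero _ (by exact_mod_cast p.2.ne_zero)
  have hDx : ∀ p ∈ T, ‖(D : ℚ_[(p : ℕ)]) * x p‖ ≤ 1 := by
    intro p hp
    have h2 : ((p : ℕ) : ℤ) ^ (N p) ∣ D := Finset.dvd_prod_of_mem (fun p : Nat.Primes =>
      ((p : ℕ) : ℤ) ^ (N p)) hp
    have h3 := norm_of_dvd' (p := (p : ℕ)) h2
    have hpp : (0 : ℝ) < ((p : ℕ) : ℝ) ^ N p := by
      have : (0 : ℝ) < ((p : ℕ) : ℝ) := by exact_mod_cast p.2.pos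
      positivity
    rw [norm_mul]
    calc ‖(D : ℚ_[(p : ℕ)])‖ * ‖x p‖ ≤ (((p : ℕ) : ℝ) ^ N p)⁻¹ * ((p : ℕ) : ℝ) ^ N p :=
          mul_le_mul h3 (hN p).le (norm_nonneg _) (by positivity)
      _ = 1 := inv_mul_cancel₀ hpp.ne'
  have hDn : ∀ p : Nat.Primes, 0 < ‖(D : ℚ_[(p : ℕ)])‖ := fun p =>
    norm_pos_iff.2 (by exact_mod_cast hD0)
  have h2 : ∀ p : Nat.Primes, ∃ K : ℕ, ((((p : ℕ) : ℝ)) ^ K)⁻¹ < δ * ‖(D : ℚ_[(p : ℕ)])‖ := by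
    intro p
    have hp1 : (1 : ℝ) < ((p : ℕ) : ℝ) := by exact_mod_cast p.2.one_lt
    obtain ⟨K, hK⟩ := exists_pow_lt_of_lt_one (mul_pos hδ (hDn p)) (inv_lt_one_of_one_lt₀ hp1)
    refine ⟨K, ?_⟩
    rwa [← inv_pow]
  choose K hK using h2
  have h3 : ∀ p : Nat.Primes, ∃ a : ℤ, p ∈ T →
      ‖(a : ℚ_[(p : ℕ)]) - (D : ℚ_[(p : ℕ)]) * x p‖ ≤ ((((p : ℕ) : ℝ)) ^ (K p))⁻¹ := by
    intro p
    by_cases hp : p ∈ T
    · obtain ⟨a, ha⟩ := Pool.Agent.N712.PN.approx (p : ℕ) _ (hDx p hp) (K p)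
      refine ⟨a, fun _ => ?_⟩
      rw [zpow_neg, zpow_natCast] at ha
      exact ha
    · exact ⟨0, fun h => absurd h hp⟩
  choose a ha using h3
  obtain ⟨b, hb⟩ := Pool.Agent.N546.PN.crt (T.sup (fun p => (p : ℕ)))
    (fun q => if hq : q.Prime then K ⟨q, hq⟩ else 0) (m := 1)
    (fun q _ => if hq : q.Prime then a ⟨q, hq⟩ else 0)
  refine ⟨(b 0 : ℚ) / (D : ℚ), fun p hp => ?_⟩
  have h4 := hb p p.2 (Finset.le_sup (f := fun p : Nat.Primes => (p : ℕ)) hp) 0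
  simp only [dif_pos p.2] at h4
  have h5 := norm_of_dvd' (p := (p : ℕ)) h4
  have hDF : (D : ℚ_[(p : ℕ)]) ≠ 0 := by exact_mod_cast hD0
  have e1 : (((b 0 : ℚ) / (D : ℚ) : ℚ) : ℚ_[(p : ℕ)]) - x p =
      ((((b 0 - a p : ℤ)) : ℚ_[(p : ℕ)]) + ((a p : ℚ_[(p : ℕ)]) - (D : ℚ_[(p : ℕ)]) * x p)) /
        (D : ℚ_[(p : ℕ)]) := by
    push_cast
    field_simp
    ring
  rw [e1, norm_div, div_lt_iff₀ (hDn p)]
  refine (Padic.nonarchimedean _ _).trans_lt (max_lt ?_ ?_)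
  · exact h5.trans_lt (hK p)
  · exact (ha p hp).trans_lt (hK p)

end Pool.Agent.N546.PW
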