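import Pool.Agent.N718.DC.Stm4
import Pool.Agent.N546.PW.ApproxQ

/-!
# Weak approximation for conics with a rational point

Copy of the file `Pool/Agent/N323/DW/CWA.lean` of helper323 with fewer imports.
-/

set_option autoImplicit false
set_option linter.all false

namespace Pool.Agent.N546.PW.CWA

open Finset Pool.Agent.N718.DC

/-- weak approximation for the rational numbers, with the real place -/
lemma approx (T : Finset Nat.Primes) (x : (p : Nat.Primes) → ℚ_[(p : ℕ)]) (y δ : ℝ)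
    (hδ : 0 < δ) :
    ∃ u : ℚ, (∀ p ∈ T, ‖(u : ℚ_[(p : ℕ)]) - x p‖ < δ) ∧ |(u : ℝ) - y| < δ := by
  obtain ⟨u, hu⟩ := Pool.Agent.N546.PW.approx_Q T x δ hδ
  obtain ⟨n, hn⟩ := exists_pow_lt_of_lt_one hδ (show ((1 : ℝ) / 2) < 1 by norm_num)
  set P : ℕ := ∏ p ∈ T, (p : ℕ) with hP
  have hP0 : 0 < P := Finset.prod_pos fun p _ => p.2.pos
  set M : ℕ := P ^ n with hM
  have hM0 : 0 < M := pow_pos hP0 n
  obtain ⟨k, hk⟩ := exists_nat_gt ((M : ℝ) / δ)
  set b : ℕ := 1 + P * k with hb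
  have hb0 : 0 < b := by omega
  have hbM : (M : ℝ) / δ < b := by
    refine hk.trans_le ?_
    have h1 : k ≤ b := by
      have := Nat.le_mul_of_pos_left k hP0
      omega
    exact_mod_cast h1
  set w : ℝ := (y - u) * b / M with hw
  refine ⟨u + (M : ℚ) * (⌊w⌋ : ℚ) / b, ?_, ?_⟩
  · intro p hp
    have hbn : ‖(b : ℚ_[(p : ℕ)])‖ = 1 := by
      rw [Padic.norm_natCast_eq_one_iff]
      have hdvd : (p : ℕ) ∣ P := Finset.dvd_prod_of_mem _ hp
      have h2 : ¬ (p : ℕ) ∣ b := by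
        intro hd
        have h3 : (p : ℕ) ∣ 1 := (Nat.dvd_add_left (hdvd.mul_right k)).1 hd
        exact p.2.one_lt.ne' (Nat.dvd_one.1 h3)
      exact (p.2.coprime_iff_not_dvd.2 h2)
    have hMn : ‖(M : ℚ_[(p : ℕ)])‖ < δ := by
      have hdvd : (p : ℕ) ∣ P := Finset.dvd_prod_of_mem _ hp
      have h1 : ‖(P : ℚ_[(p : ℕ)])‖ ≤ 1 / 2 := by
        obtain ⟨q, hq⟩ := hdvd
        rw [hq, Nat.cast_mul, norm_mul, Padic.norm_p]
        have h3 : ‖(q : ℚ_[(p : ℕ)])‖ ≤ 1 := by exact_mod_cast Padic.norm_int_le_one (q : ℤ)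
        have h4 : (((p : ℕ) : ℝ))⁻¹ ≤ 1 / 2 := by
          rw [one_div]
          apply inv_anti₀ (by norm_num)
          exact_mod_cast p.2.two_le
        have h5 : (0 : ℝ) ≤ ‖(q : ℚ_[(p : ℕ)])‖ := norm_nonneg _
        nlinarith [show (0 : ℝ) ≤ (((p : ℕ) : ℝ))⁻¹ by positivity]
      rw [hM, Nat.cast_pow, norm_pow]
      exact lt_of_le_of_lt (pow_le_pow_left₀ (norm_nonneg _) h1 n) hn
    have hr : ‖((M : ℚ_[(p : ℕ)]) * ((⌊w⌋ : ℤ) : ℚ_[(p : ℕ)]) / b)‖ < δ := by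
      rw [norm_div, norm_mul, hbn, div_one]
      have h3 : ‖((⌊w⌋ : ℤ) : ℚ_[(p : ℕ)])‖ ≤ 1 := Padic.norm_int_le_one _
      exact lt_of_le_of_lt (mul_le_of_le_one_right (norm_nonneg _) h3) hMn
    have e : (((u + (M : ℚ) * (⌊w⌋ : ℚ) / b : ℚ)) : ℚ_[(p : ℕ)]) - x p =
        ((u : ℚ_[(p : ℕ)]) - x p) + ((M : ℚ_[(p : ℕ)]) * ((⌊w⌋ : ℤ) : ℚ_[(p : ℕ)]) / b) := by
      push_cast
      ring
    rw [e]
    exact lt_of_le_of_lt (Padic.nonarchimedean _ _) (max_lt (hu p hp) hr)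
  · have hbR : (0 : ℝ) < b := by exact_mod_cast hb0
    have hMR : (0 : ℝ) < M := by exact_mod_cast hM0
    have h1 : ((u + (M : ℚ) * (⌊w⌋ : ℚ) / b : ℚ) : ℝ) - y = (⌊w⌋ - w) * (M / b) := by
      rw [hw]
      push_cast
      field_simp
      ring
    rw [h1, abs_mul, abs_of_pos (div_pos hMR hbR)]
    have h2 : |(⌊w⌋ : ℝ) - w| ≤ 1 := by
      rw [abs_sub_comm, abs_of_nonneg (sub_nonneg.2 (Int.floor_le w))]
      linarith [Int.lt_floor_add_one w]
    have h3 : (M : ℝ) / b < δ := by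
      rw [div_lt_iff₀ hbR]
      rw [div_lt_iff₀ hδ] at hbM
      linarith
    calc |(⌊w⌋ : ℝ) - w| * (M / b) ≤ 1 * (M / b) :=
          mul_le_mul_of_nonneg_right h2 (by positivity)
      _ < δ := by rw [one_mul]; exact h3

/-- the second point of the conic on the line through `P` with the direction `d` -/
def phi {K : Type} [Field K] (A B C : K) (P d : Fin 3 → K) : Fin 3 → K := fun j =>
  (A * d 0 ^ 2 + B * d 1 ^ 2 - C * d 2 ^ 2) * P j -
    2 * (A * P 0 * d 0 + B * P 1 * d 1 - C * P 2 * d 2) * d j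

lemma phi_on {K : Type} [Field K] (A B C : K) (P d : Fin 3 → K)
    (hP : A * P 0 ^ 2 + B * P 1 ^ 2 = C * P 2 ^ 2) :
    A * phi A B C P d 0 ^ 2 + B * phi A B C P d 1 ^ 2 = C * phi A B C P d 2 ^ 2 := by
  unfold phi
  linear_combination (A * d 0 ^ 2 + B * d 1 ^ 2 - C * d 2 ^ 2) ^ 2 * hP

lemma prop {K : Type} [Field K] (α β γ p q r x y z : K) (hα : α ≠ 0) (hβ : β ≠ 0) (hγ : γ ≠ 0)
    (hr : r ≠ 0) (h1 : α * p ^ 2 + β * q ^ 2 + γ * r ^ 2 = 0)
    (h2 : α * x ^ 2 + β * y ^ 2 + γ * z ^ 2 = 0) (h3 : α * p * x + β * q * y + γ * r * z = 0) :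
    r * x = z * p ∧ r * y = z * q := by
  have e1 : α * p * (r * x - z * p) + β * q * (r * y - z * q) = 0 := by
    linear_combination r * h3 - z * h1
  have e2 : α * (r * x - z * p) ^ 2 + β * (r * y - z * q) ^ 2 = 0 := by
    linear_combination r ^ 2 * h2 - 2 * r * z * h3 + z ^ 2 * h1
  have e3 : (p * (r * y - z * q) - q * (r * x - z * p)) ^ 2 = 0 := by
    have h4 : α * β * (p * (r * y - z * q) - q * (r * x - z * p)) ^ 2 = 0 := by
      linear_combination (α * p ^ 2 + β * q ^ 2) * e2 -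
        (α * p * (r * x - z * p) + β * q * (r * y - z * q)) * e1
    rcases mul_eq_zero.1 h4 with h | h
    · exact absurd h (mul_ne_zero hα hβ)
    · exact h
  have e4 : p * (r * y - z * q) = q * (r * x - z * p) :=
    sub_eq_zero.1 (pow_eq_zero_iff (two_ne_zero) |>.1 e3)
  have hne : γ * r ^ 2 ≠ 0 := mul_ne_zero hγ (pow_ne_zero 2 hr)
  have e5 : γ * r ^ 2 * (r * x - z * p) = 0 := by
    linear_combination (r * x - z * p) * h1 - p * e1 + β * q * e4
  have e6 : γ * r ^ 2 * (r * y - z * q) = 0 := by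
    linear_combination (r * y - z * q) * h1 - q * e1 - α * p * e4
  exact ⟨sub_eq_zero.1 ((mul_eq_zero.1 e5).resolve_left hne),
    sub_eq_zero.1 ((mul_eq_zero.1 e6).resolve_left hne)⟩

lemma exists_dir {K : Type} [Field K] (A B C : K) (hA : A ≠ 0) (hB : B ≠ 0) (hC : C ≠ 0)
    (h2 : (2 : K) ≠ 0) (P Z : Fin 3 → K) (hP0 : P ≠ 0)
    (hP : A * P 0 ^ 2 + B * P 1 ^ 2 = C * P 2 ^ 2) (hZ0 : Z ≠ 0)
    (hZ : A * Z 0 ^ 2 + B * Z 1 ^ 2 = C * Z 2 ^ 2) :
    ∃ (D : Fin 3 → K) (l : K), l ≠ 0 ∧ ∀ j, l * phi A B C P D j = Z j := by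
  by_cases hb : A * P 0 * Z 0 + B * P 1 * Z 1 - C * P 2 * Z 2 = 0
  swap
  · have hb2 : -(2 * (A * P 0 * Z 0 + B * P 1 * Z 1 - C * P 2 * Z 2)) ≠ 0 :=
      neg_ne_zero.2 (mul_ne_zero h2 hb)
    refine ⟨Z, (-(2 * (A * P 0 * Z 0 + B * P 1 * Z 1 - C * P 2 * Z 2)))⁻¹, inv_ne_zero hb2, ?_⟩
    intro j
    have e : phi A B C P Z j = -(2 * (A * P 0 * Z 0 + B * P 1 * Z 1 - C * P 2 * Z 2)) * Z j := by
      unfold phi
      linear_combination P j * hZ
    rw [e, inv_mul_cancel_left₀ hb2]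
  have main : ∀ (D : Fin 3 → K) (m : K), m ≠ 0 →
      A * P 0 * D 0 + B * P 1 * D 1 - C * P 2 * D 2 = 0 →
      A * D 0 ^ 2 + B * D 1 ^ 2 - C * D 2 ^ 2 ≠ 0 → (∀ j, Z j = m * P j) →
      ∃ (D : Fin 3 → K) (l : K), l ≠ 0 ∧ ∀ j, l * phi A B C P D j = Z j := by
    intro D m hm hD1 hD2 hm2
    refine ⟨D, m / (A * D 0 ^ 2 + B * D 1 ^ 2 - C * D 2 ^ 2), div_ne_zero hm hD2, ?_⟩
    intro j
    have e : phi A B C P D j = (A * D 0 ^ 2 + B * D 1 ^ 2 - C * D 2 ^ 2) * P j := by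
      unfold phi
      rw [hD1]
      ring
    rw [e, hm2 j, ← mul_assoc, div_mul_cancel₀ _ hD2]
  have hmne : ∀ m : K, (∀ j, Z j = m * P j) → m ≠ 0 := by
    intro m hm hm0
    apply hZ0
    funext j
    rw [hm j, hm0, zero_mul]
    rfl
  by_cases p2 : P 2 = 0
  swap
  · obtain ⟨e1, e2⟩ := prop A B (-C) (P 0) (P 1) (P 2) (Z 0) (Z 1) (Z 2) hA hB (neg_ne_zero.2 hC) p2
      (by linear_combination hP) (by linear_combination hZ) (by linear_combination hb)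
    have hm : ∀ j, Z j = Z 2 / P 2 * P j := by
      intro j
      rw [div_mul_eq_mul_div, eq_div_iff p2]
      fin_cases j
      · show Z 0 * P 2 = Z 2 * P 0
        rw [mul_comm]; exact e1
      · show Z 1 * P 2 = Z 2 * P 1
        rw [mul_comm]; exact e2
      · rfl
    refine main ![B * P 1, -(A * P 0), 0] _ (hmne _ hm) ?_ ?_ hm
    · simp
      ring
    · have e : A * (![B * P 1, -(A * P 0), 0] : Fin 3 → K) 0 ^ 2 +
          B * (![B * P 1, -(A * P 0), 0] : Fin 3 → K) 1 ^ 2 -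
          C * (![B * P 1, -(A * P 0), 0] : Fin 3 → K) 2 ^ 2 = A * B * C * P 2 ^ 2 := by
        simp
        linear_combination A * B * hP
      rw [e]
      exact mul_ne_zero (mul_ne_zero (mul_ne_zero hA hB) hC) (pow_ne_zero 2 p2)
  by_cases p1 : P 1 = 0
  swap
  · obtain ⟨e1, e2⟩ := prop A (-C) B (P 0) (P 2) (P 1) (Z 0) (Z 2) (Z 1) hA (neg_ne_zero.2 hC) hB p1
      (by linear_combination hP) (by linear_combination hZ) (by linear_combination hb)
    have hm : ∀ j, Z j = Z 1 / P 1 * P j := by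
      intro j
      rw [div_mul_eq_mul_div, eq_div_iff p1]
      fin_cases j
      · show Z 0 * P 1 = Z 1 * P 0
        rw [mul_comm]; exact e1
      · rfl
      · show Z 2 * P 1 = Z 1 * P 2
        rw [mul_comm]; exact e2
    refine main ![C * P 2, 0, A * P 0] _ (hmne _ hm) ?_ ?_ hm
    · simp
      ring
    · have e : A * (![C * P 2, 0, A * P 0] : Fin 3 → K) 0 ^ 2 +
          B * (![C * P 2, 0, A * P 0] : Fin 3 → K) 1 ^ 2 -
          C * (![C * P 2, 0, A * P 0] : Fin 3 → K) 2 ^ 2 = A * B * C * P 1 ^ 2 := by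
        simp
        linear_combination -(A * C) * hP
      rw [e]
      exact mul_ne_zero (mul_ne_zero (mul_ne_zero hA hB) hC) (pow_ne_zero 2 p1)
  have p0 : P 0 ≠ 0 := by
    intro p0
    apply hP0
    funext j
    fin_cases j
    · exact p0
    · exact p1
    · exact p2
  obtain ⟨e1, e2⟩ := prop B (-C) A (P 1) (P 2) (P 0) (Z 1) (Z 2) (Z 0) hB (neg_ne_zero.2 hC) hA p0
    (by linear_combination hP) (by linear_combination hZ) (by linear_combination hb)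
  have hm : ∀ j, Z j = Z 0 / P 0 * P j := by
    intro j
    rw [div_mul_eq_mul_div, eq_div_iff p0]
    fin_cases j
    · rfl
    · show Z 1 * P 0 = Z 0 * P 1
      rw [mul_comm]; exact e1
    · show Z 2 * P 0 = Z 0 * P 2
      rw [mul_comm]; exact e2
  refine main ![0, C * P 2, B * P 1] _ (hmne _ hm) ?_ ?_ hm
  · simp
    ring
  · have e : A * (![0, C * P 2, B * P 1] : Fin 3 → K) 0 ^ 2 +
        B * (![0, C * P 2, B * P 1] : Fin 3 → K) 1 ^ 2 -
        C * (![0, C * P 2, B * P 1] : Fin 3 → K) 2 ^ 2 = A * B * C * P 0 ^ 2 := by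
      simp
      linear_combination -(B * C) * hP
    rw [e]
    exact mul_ne_zero (mul_ne_zero (mul_ne_zero hA hB) hC) (pow_ne_zero 2 p0)

/-- the local statement -/
lemma local_ {K : Type} [NormedField K] (A B C : K) (hA : A ≠ 0) (hB : B ≠ 0)
    (hC : C ≠ 0) (h2 : (2 : K) ≠ 0) (P Z : Fin 3 → K) (hP0 : P ≠ 0)
    (hP : A * P 0 ^ 2 + B * P 1 ^ 2 = C * P 2 ^ 2) (hZ : OnC A B C Z) (ε : ℝ) (hε : 0 < ε) :
    ∃ (D : Fin 3 → K) (δ : ℝ), 0 < δ ∧ ∀ d : Fin 3 → K, (∀ j, ‖d j - D j‖ < δ) →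
      Near ε Z (phi A B C P d) ∧ phi A B C P d ≠ 0 := by
  obtain ⟨D, l, hl, hD⟩ := exists_dir A B C hA hB hC h2 P Z hP0 hP hZ.1 hZ.2
  have hZn : 0 < ‖Z‖ := norm_pos_iff.2 hZ.1
  have hcont : Continuous (fun d : Fin 3 → K => fun j => l * phi A B C P d j) := by
    unfold phi
    fun_prop
  obtain ⟨δ, hδ, hball⟩ := Metric.continuousAt_iff.1 (hcont.continuousAt (x := D))
    (‖Z‖ * min ε (1 / 2)) (by positivity)
  refine ⟨D, δ, hδ, fun d hd => ?_⟩
  have h1 : dist d D < δ := by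
    rw [dist_pi_lt_iff hδ]
    intro j
    rw [dist_eq_norm]
    exact hd j
  have h3 := hball h1
  rw [dist_pi_lt_iff (by positivity)] at h3
  have h4 : ∀ j, ‖Z j - l * phi A B C P d j‖ < ‖Z‖ * min ε (1 / 2) := by
    intro j
    have := h3 j
    rw [hD j, dist_comm, dist_eq_norm] at this
    exact this
  refine ⟨⟨l, hl, fun j => (h4 j).le.trans ?_⟩, ?_⟩
  · exact mul_le_mul_of_nonneg_left (min_le_left _ _) hZn.le
  · intro h0
    have h5 : ‖Z‖ ≤ ‖Z‖ * (1 / 2) := by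
      rw [pi_norm_le_iff_of_nonneg (by positivity)]
      intro j
      have h6 := (h4 j).le
      rw [h0] at h6
      simp only [Pi.zero_apply, mul_zero, sub_zero] at h6
      exact h6.trans (mul_le_mul_of_nonneg_left (min_le_right _ _) hZn.le)
    linarith

theorem cwa_ : S_CWA := by
  intro A B C hA hB hC hsol S Z ZR hZ hZR ε hε
  obtain ⟨u, v, w, hne, hP⟩ := hsol
  set P : Fin 3 → ℚ := ![u, v, w] with hPdef
  have hP0 : P ≠ 0 := by
    intro h
    have h0 := congrFun h 0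
    have h1 := congrFun h 1
    have h2 := congrFun h 2
    simp [hPdef] at h0 h1 h2
    rcases hne with h | h | h
    · exact h h0
    · exact h h1
    · exact h h2
  have hPq : A * P 0 ^ 2 + B * P 1 ^ 2 = C * P 2 ^ 2 := by
    simpa [hPdef] using hP
  have key : ∀ (K : Type) [NormedField K] [CharZero K] (Y : Fin 3 → K),
      OnC (A : K) B C Y → ∃ (D : Fin 3 → K) (δ : ℝ), 0 < δ ∧ ∀ d : Fin 3 → K,
        (∀ j, ‖d j - D j‖ < δ) →
        Near ε Y (phi (A : K) B C (fun j => (P j : K)) d) ∧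
          phi (A : K) B C (fun j => (P j : K)) d ≠ 0 := by
    intro K _ _ Y hY
    refine local_ (A : K) B C (by exact_mod_cast hA) (by exact_mod_cast hB)
      (by exact_mod_cast hC) two_ne_zero (fun j => (P j : K)) Y ?_ ?_ hY ε hε
    · intro h
      apply hP0
      funext j
      have := congrFun h j
      simp only [Pi.zero_apply] at this ⊢
      exact_mod_cast this
    · exact_mod_cast congrArg (fun x : ℚ => (x : K)) hPq
  have hcast : ∀ (K : Type) [Field K] [CharZero K] (d : Fin 3 → ℚ) (j : Fin 3),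
      ((phi A B C P d j : ℚ) : K) =
        phi (A : K) B C (fun j => (P j : K)) (fun j => (d j : K)) j := by
    intro K _ _ d j
    unfold phi
    push_cast
    ring
  have hloc : ∀ p : Nat.Primes, ∃ (D : Fin 3 → ℚ_[(p : ℕ)]) (δ : ℝ), 0 < δ ∧
      (p ∈ S → ∀ d : Fin 3 → ℚ_[(p : ℕ)], (∀ j, ‖d j - D j‖ < δ) →
        Near ε (Z p) (phi (A : ℚ_[(p : ℕ)]) B C (fun j => (P j : ℚ_[(p : ℕ)])) d)) := by
    intro p
    by_cases hp : p ∈ S
    · obtain ⟨D, δ, hδ, h⟩ := key ℚ_[(p : ℕ)] (Z p) (hZ p hp)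
      exact ⟨D, δ, hδ, fun _ d hd => (h d hd).1⟩
    · exact ⟨0, 1, one_pos, fun h => absurd h hp⟩
  choose D δ hδ hD using hloc
  obtain ⟨DR, δR, hδR, hDR⟩ := key ℝ ZR hZR
  obtain ⟨t, ht⟩ : ∃ t : ℝ, t = (∑ p ∈ S, (δ p)⁻¹ + δR⁻¹)⁻¹ := ⟨_, rfl⟩
  have hsum : 0 ≤ ∑ p ∈ S, (δ p)⁻¹ := sum_nonneg fun p _ => inv_nonneg.2 (hδ p).le
  have hRi : 0 < δR⁻¹ := inv_pos.2 hδR
  have ht0 : 0 < t := by rw [ht]; positivity
  have htp : ∀ p ∈ S, t ≤ δ p := by
    intro p hp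
    rw [ht, inv_le_comm₀ (by positivity) (hδ p)]
    have := single_le_sum (f := fun p => (δ p)⁻¹) (fun p _ => inv_nonneg.2 (hδ p).le) hp
    linarith
  have htR : t ≤ δR := by
    rw [ht, inv_le_comm₀ (by positivity) hδR]
    linarith
  have happ : ∀ j : Fin 3, ∃ d : ℚ, (∀ p ∈ S, ‖(d : ℚ_[(p : ℕ)]) - D p j‖ < t) ∧
      |(d : ℝ) - DR j| < t := fun j => approx S (fun p => D p j) (DR j) t ht0
  choose d hd1 hd2 using happ
  have hR := hDR (fun j => (d j : ℝ)) fun j => by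
    rw [Real.norm_eq_abs]
    exact (hd2 j).trans_le htR
  refine ⟨phi A B C P d, ⟨?_, phi_on A B C P d hPq⟩, ?_, ?_⟩
  · intro h0
    apply hR.2
    funext j
    rw [← hcast ℝ d j, h0]
    simp
  · intro p hp
    have h1 := hD p hp (fun j => (d j : ℚ_[(p : ℕ)])) fun j => (hd1 j p hp).trans_le (htp p hp)
    have h2 : (fun j => ((phi A B C P d j : ℚ) : ℚ_[(p : ℕ)])) =
        phi (A : ℚ_[(p : ℕ)]) B C (fun j => (P j : ℚ_[(p : ℕ)]))
          (fun j => (d j : ℚ_[(p : ℕ)])) := funext fun j => hcast ℚ_[(p : ℕ)] d j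
    rw [h2]
    exact h1
  · have h2 : (fun j => ((phi A B C P d j : ℚ) : ℝ)) =
        phi (A : ℝ) B C (fun j => (P j : ℝ)) (fun j => (d j : ℝ)) :=
      funext fun j => hcast ℝ d j
    rw [h2]
    exact hR.1

end Pool.Agent.N546.PW.CWA
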