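import Mathlib
import Pool.Agent.N546.PN.Stm3
import Pool.Agent.N546.PN.Main

/-!
# Project PW (helper546): the point on the line
-/

set_option autoImplicit false
set_option linter.all false

namespace Pool.Agent.N546.PN

open Finset Filter Topology

lemma c3_of_on {r : ℕ} {K : Type} [Field K] {a : Fin r × Fin 3 → K} {z : Fin r → Fin 3 → K}
    (h : On a z) : C3 a := by
  intro i
  obtain ⟨h1, h2⟩ := h i
  refine ⟨z i 0, z i 1, z i 2, ?_, h2⟩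
  by_contra h3
  rw [not_or, not_or] at h3
  apply h1
  funext l
  fin_cases l
  · exact not_not.1 h3.1
  · exact not_not.1 h3.2.1
  · exact not_not.1 h3.2.2

lemma on_of_c3 {r : ℕ} {K : Type} [Field K] {a : Fin r × Fin 3 → K} (h : C3 a) :
    ∃ z : Fin r → Fin 3 → K, On a z := by
  choose u v w h1 h2 using h
  refine ⟨fun i => ![u i, v i, w i], fun i => ⟨?_, h2 i⟩⟩
  intro h3
  rcases h1 i with h4 | h4 | h4
  · exact h4 (congrFun h3 0)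
  · exact h4 (congrFun h3 1)
  · exact h4 (congrFun h3 2)

lemma dvd_of_norm {p : ℕ} [Fact p.Prime] {N : ℕ} {z : ℤ} (h : ‖(z : ℚ_[p])‖ ≤ ((p : ℝ) ^ N)⁻¹) :
    (p : ℤ) ^ N ∣ z := by
  have h1 := (Padic.norm_int_le_pow_iff_dvd (p := p) z N).1 (by
    rw [zpow_neg, zpow_natCast]
    exact h)
  exact_mod_cast h1

lemma norm_of_dvd {p : ℕ} [Fact p.Prime] {N : ℕ} {z : ℤ} (h : (p : ℤ) ^ N ∣ z) :
    ‖(z : ℚ_[p])‖ ≤ ((p : ℝ) ^ N)⁻¹ := by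
  have h1 := (Padic.norm_int_le_pow_iff_dvd (p := p) z N).2 (by exact_mod_cast h)
  rw [zpow_neg, zpow_natCast] at h1
  exact h1

lemma small {p N m : ℕ} (hp : p.Prime) (hm : 1 ≤ m) (hN : 2 * m ≤ N) :
    ((p : ℝ) ^ N)⁻¹ < 1 / (2 * (m : ℝ)) := by
  have hp2 : (2 : ℝ) ≤ p := by exact_mod_cast hp.two_le
  have h1 : ((2 * m : ℕ) : ℝ) < 2 ^ (2 * m) := by
    exact_mod_cast Nat.lt_two_pow_self
  have h2 : (2 : ℝ) ^ (2 * m) ≤ (p : ℝ) ^ N :=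
    (pow_le_pow_left₀ (by norm_num) hp2 _).trans (pow_le_pow_right₀ (by linarith) hN)
  rw [← one_div]
  have hm0 : (0 : ℝ) < m := by exact_mod_cast hm
  refine one_div_lt_one_div_of_lt (by positivity) ?_
  push_cast at h1
  linarith

theorem det (hgluw : S_GLUW) {n r : ℕ} {e : Fin r × Fin 3 → ℕ} (he : ∀ i l l', e (i, l) = e (i, l'))
    (m : ℕ) (hm : 1 ≤ m) (c : (k : Fin r × Fin 3) → Mon n (e k + 1) → ℤ)
    (X : (p : Nat.Primes) → Fin (n + 1) → ℚ_[(p : ℕ)])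
    (Z : (p : Nat.Primes) → Fin r → Fin 3 → ℚ_[(p : ℕ)])
    (XR : Fin (n + 1) → ℝ) (ZR : Fin r → Fin 3 → ℝ)
    (hXZ : ∀ p : Nat.Primes, (p : ℕ) ≤ m → ‖X p‖ = 1 ∧ (∀ i, ‖Z p i‖ = 1)) (hXR : ‖XR‖ = 1)
    (hZR : ∀ i, ‖ZR i‖ = 1)
    (b : Fin (n + 1) → ℤ) (t δ₁ : ℝ) (ht : 0 < t) (hδ₁ : 0 < δ₁) (xsj : Fin (n + 1) → ℝ)
    (hr1 : ∀ i, |xsj i - XR i| < 1 / (4 * (m : ℝ))) (hδ₁' : δ₁ ≤ 1 / (4 * (m : ℝ)))
    (hr2 : ∀ x'' : Fin (n + 1) → ℝ, (∀ i, |x'' i - xsj i| < δ₁) →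
      ∃ z'' : Fin r → Fin 3 → ℝ, (∀ i l, |z'' i l - ZR i l| < 1 / (4 * (m : ℝ))) ∧
          On (fun k => val (ic c ℝ k) x'') z'')
    (hb : ∀ i, |(b i : ℝ) / t - xsj i| < δ₁ / 2)
    (Nw : ℕ → ℕ) (hNw : ∀ p, 2 * m ≤ Nw p) (NN : ℕ) (hNN : ∀ p : ℕ, p.Prime → p ≤ m → Nw p ≤ NN)
    (ap : (p : Nat.Primes) → Fin (n + 1) → ℤ)
    (hap : ∀ p : Nat.Primes, (p : ℕ) ≤ m →
      (∀ i, ‖((ap p i : ℤ) : ℚ_[(p : ℕ)]) - X p i‖ < 1 / (2 * (m : ℝ))) ∧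
        StabW (p : ℕ) (Nw p) (1 / (2 * (m : ℝ))) c (ap p) (Z p))
    (hbp : ∀ p : Nat.Primes, (p : ℕ) ≤ m → ∀ i, ((p : ℕ) : ℤ) ^ (Nw p) ∣ b i - ap p i)
    (i₁ : Fin (n + 1)) (x y : ℤ) (hx : 0 < x) (hy : |(y : ℝ) / x| < t * δ₁ / 2)
    (hne : ∀ k, val (ic c ℚ k) (fun i => ((x * b i + if i = i₁ then y else 0 : ℤ) : ℚ)) ≠ 0)
    (hC : C3 (fun k => val (ic c ℚ k) (fun i => ((x * b i + if i = i₁ then y else 0 : ℤ) : ℚ))))
    (hxy : ∀ p : Nat.Primes, (p : ℕ) ≤ m → ‖(1 : ℚ_[(p : ℕ)]) - (x : ℚ_[(p : ℕ)])‖ ≤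
      (((p : ℕ) : ℝ) ^ NN)⁻¹ ∧ ‖(0 : ℚ_[(p : ℕ)]) - (y : ℚ_[(p : ℕ)])‖ ≤ (((p : ℕ) : ℝ) ^ NN)⁻¹) :
    ∃ (x : Fin (n + 1) → ℚ) (z : Fin r → Fin 3 → ℚ), x ≠ 0 ∧ On (fun k => val (ic c ℚ k) x) z ∧
      (∀ p : Nat.Primes, (p : ℕ) ≤ m →
        Pool.Agent.N718.DC.Near (2 * (1 / (2 * (m : ℝ)))) (X p) (fun j => (x j : ℚ_[(p : ℕ)])) ∧
        ∀ i, Pool.Agent.N718.DC.Near (2 * (1 / (2 * (m : ℝ)))) (Z p i)
          (fun j => (z i j : ℚ_[(p : ℕ)]))) ∧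
      Pool.Agent.N718.DC.Near (2 * (1 / (2 * (m : ℝ)))) XR (fun j => (x j : ℝ)) ∧
        ∀ i, Pool.Agent.N718.DC.Near (2 * (1 / (2 * (m : ℝ)))) (ZR i) (fun j => (z i j : ℝ)) := by
  have hm0 : (0 : ℝ) < m := by exact_mod_cast hm
  have hm1 : (1 : ℝ) ≤ m := by exact_mod_cast hm
  have hx0 : (0 : ℝ) < x := by exact_mod_cast hx
  have h42 : 1 / (4 * (m : ℝ)) ≤ 1 / (2 * (m : ℝ)) := by
    refine one_div_le_one_div_of_le (by positivity) ?_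
    linarith
  have h44 : 1 / (4 * (m : ℝ)) + 1 / (4 * (m : ℝ)) = 1 / (2 * (m : ℝ)) := by
    field_simp
    norm_num
  set q : Fin (n + 1) → ℤ := fun i => x * b i + if i = i₁ then y else 0 with hq
  -- the real point
  have hq1 : ∀ i, |(q i : ℝ) / (x * t) - xsj i| < δ₁ := by
    intro i
    have h1 : (q i : ℝ) / (x * t) - xsj i = ((b i : ℝ) / t - xsj i) +
        (if i = i₁ then (y : ℝ) / x / t else 0) := by
      rw [hq]
      simp only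
      split_ifs with h
      · push_cast
        field_simp
        ring
      · push_cast
        field_simp
        ring
    rw [h1]
    refine (abs_add_le _ _).trans_lt ?_
    have h2 : |(if i = i₁ then (y : ℝ) / x / t else 0)| < δ₁ / 2 := by
      split_ifs with h
      · rw [abs_div, abs_of_pos ht, div_lt_iff₀ ht]
        linarith
      · rw [abs_zero]
        positivity
    linarith [hb i]
  refine hgluw n r e he c m (1 / (2 * (m : ℝ))) (by positivity) ?_ q (x * t) (by positivity) hne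
    (on_of_c3 hC) X Z XR ZR hXZ hXR hZR ?_ ?_ ?_
  · refine one_div_le_one_div_of_le (by norm_num) ?_
    linarith
  · intro p hp
    haveI : Fact (p : ℕ).Prime := ⟨p.2⟩
    obtain ⟨h1, h2⟩ := hap p hp
    obtain ⟨h3, h4⟩ := hxy p hp
    have hle : (((p : ℕ) : ℝ) ^ NN)⁻¹ ≤ (((p : ℕ) : ℝ) ^ (Nw p))⁻¹ := by
      have hp1 : (1 : ℝ) ≤ ((p : ℕ) : ℝ) := by exact_mod_cast p.2.one_le
      exact inv_anti₀ (by positivity) (pow_le_pow_right₀ hp1 (hNN p p.2 hp))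
    have h5 : ((p : ℕ) : ℤ) ^ (Nw p) ∣ x - 1 := by
      refine dvd_of_norm ?_
      rw [Int.cast_sub, Int.cast_one, norm_sub_rev]
      exact h3.trans hle
    have h6 : ((p : ℕ) : ℤ) ^ (Nw p) ∣ y := by
      refine dvd_of_norm ?_
      rw [zero_sub, norm_neg] at h4
      exact h4.trans hle
    have h7 : ∀ i, ((p : ℕ) : ℤ) ^ (Nw p) ∣ q i - ap p i := by
      intro i
      have h8 : q i - ap p i = (x - 1) * b i + (if i = i₁ then y else 0) + (b i - ap p i) := by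
        rw [hq]
        ring
      rw [h8]
      refine dvd_add (dvd_add (Dvd.dvd.mul_right h5 _) ?_) (hbp p hp i)
      split_ifs
      · exact h6
      · exact dvd_zero _
    refine ⟨fun i => ?_, ?_⟩
    · have h8 : (q i : ℚ_[(p : ℕ)]) - X p i =
          (((q i - ap p i : ℤ) : ℚ_[(p : ℕ)])) + (((ap p i : ℤ) : ℚ_[(p : ℕ)]) - X p i) := by
        push_cast
        ring
      rw [h8]
      refine (Padic.nonarchimedean _ _).trans_lt (max_lt ?_ (h1 i))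
      exact (norm_of_dvd (h7 i)).trans_lt (small p.2 hm (hNw p))
    · exact (h2 c q (fun k m => by rw [sub_self]; exact dvd_zero _) h7).2
  · intro i
    have h1 : (q i : ℝ) / (x * t) - XR i = ((q i : ℝ) / (x * t) - xsj i) + (xsj i - XR i) := by ring
    rw [h1]
    refine (abs_add_le _ _).trans_lt ?_
    have := hq1 i
    have := hr1 i
    linarith
  · obtain ⟨z'', h1, h2⟩ := hr2 _ hq1
    exact ⟨z'', fun i l => (h1 i l).trans_le h42, h2⟩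

end Pool.Agent.N546.PN
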