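import Mathlib
import Pool.Agent.N546.PN.Stm3
import Pool.Agent.N546.PN.Main

/-!
# Project PW (helper546): gluing over a rational base point
-/

set_option autoImplicit false
set_option linter.all false

namespace Pool.Agent.N546.PN

open Finset Filter Topology

lemma near_trans {K : Type} [NormedField K] {ε : ℝ} (hε : 0 < ε) (hε2 : ε ≤ 1 / 2)
    (a a' b : Fin 3 → K) (ha : ‖a‖ = 1) (h1 : ∀ l, ‖a' l - a l‖ < ε)
    (h2 : Pool.Agent.N718.DC.Near (ε / 4) a' b) : Pool.Agent.N718.DC.Near (2 * ε) a b := by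
  obtain ⟨l, hl, h3⟩ := h2
  refine ⟨l, hl, fun j => ?_⟩
  have h4 : ‖a'‖ ≤ 3 / 2 := by
    refine (pi_norm_le_iff_of_nonneg (by norm_num)).2 fun i => ?_
    have h5 : a' i = (a' i - a i) + a i := by ring
    rw [h5]
    refine (norm_add_le _ _).trans ?_
    have h6 := norm_le_pi_norm a i
    have h7 := h1 i
    linarith
  have h5 : a j - l * b j = (a j - a' j) + (a' j - l * b j) := by ring
  rw [h5, ha]
  refine (norm_add_le _ _).trans ?_
  have h6 := h1 j
  rw [norm_sub_rev] at h6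
  have h7 := h3 j
  have h8 : ‖a'‖ * (ε / 4) ≤ 3 / 2 * (ε / 4) := mul_le_mul_of_nonneg_right h4 (by positivity)
  linarith

theorem gluw_ (hcwa : Pool.Agent.N718.DC.S_CWA) : S_GLUW := by
  classical
  intro n r e he c m ε hε hε2 q s hs hne hrat X Z XR ZR hXZ hXR hZR hp hRx hRz
  have hSf : {p : Nat.Primes | (p : ℕ) ≤ m}.Finite :=
    Set.Finite.preimage (fun a _ b _ h => Subtype.ext h) (Set.finite_le_nat m)
  have hSm : ∀ p : Nat.Primes, p ∈ hSf.toFinset ↔ (p : ℕ) ≤ m := fun p => by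
    rw [Set.Finite.mem_toFinset]
    rfl
  have hcast : ∀ (K : Type) [Field K] [CharZero K] (k : Fin r × Fin 3),
      ((val (ic c ℚ k) (fun i => (q i : ℚ)) : ℚ) : K) = val (ic c K k) (fun i => ((q i : ℤ) : K)) := by
    intro K _ _ k
    unfold val ic
    push_cast
    rfl
  have hx0 : (fun i => (q i : ℚ)) ≠ 0 := by
    intro h
    have h1 : ∀ i, q i = 0 := fun i => by
      have h3 : ((q i : ℤ) : ℚ) = 0 := congrFun h i
      exact_mod_cast h3
    have h2 : ‖XR‖ ≤ 1 / 2 := by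
      refine (pi_norm_le_iff_of_nonneg (by norm_num)).2 fun i => ?_
      have h3 := hRx i
      rw [h1 i, Int.cast_zero, zero_div, zero_sub, abs_neg] at h3
      rw [Real.norm_eq_abs]
      linarith
    linarith
  have hzp : ∀ p : Nat.Primes, ∃ z'' : Fin r → Fin 3 → ℚ_[(p : ℕ)], (p : ℕ) ≤ m →
      (∀ i l, ‖z'' i l - Z p i l‖ < ε) ∧
        On (fun k => val (ic c ℚ_[(p : ℕ)] k) (fun i => ((q i : ℤ) : ℚ_[(p : ℕ)]))) z'' := by
    intro p
    by_cases hpm : (p : ℕ) ≤ m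
    · obtain ⟨z'', h⟩ := (hp p hpm).2
      exact ⟨z'', fun _ => h⟩
    · exact ⟨fun _ _ => 0, fun h => absurd h hpm⟩
  choose zp hzp using hzp
  obtain ⟨zR, hzR1, hzR2⟩ := hRz
  obtain ⟨z0, hz0⟩ := hrat
  -- the real values at `q`
  have hsc : ∀ k, val (ic c ℝ k) (fun i => ((q i : ℤ) : ℝ)) =
      s ^ (e k + 1) * val (ic c ℝ k) (fun i => (q i : ℝ) / s) := by
    intro k
    have h1 := val_smul (ic c ℝ k) s (fun i => (q i : ℝ) / s)
    rw [← h1]
    congr 1
    funext i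
    field_simp
  have key : ∀ i, ∃ z : Fin 3 → ℚ, Pool.Agent.N718.DC.OnC (val (ic c ℚ (i, 0)) (fun i => (q i : ℚ)))
      (val (ic c ℚ (i, 1)) (fun i => (q i : ℚ))) (val (ic c ℚ (i, 2)) (fun i => (q i : ℚ))) z ∧
      (∀ p ∈ hSf.toFinset, Pool.Agent.N718.DC.Near (ε / 4) (zp p i) (fun j => (z j : ℚ_[(p : ℕ)]))) ∧
      Pool.Agent.N718.DC.Near (ε / 4) (zR i) (fun j => (z j : ℝ)) := by
    intro i
    refine hcwa _ _ _ (hne (i, 0)) (hne (i, 1)) (hne (i, 2)) ?_ hSf.toFinset (fun p => zp p i) (zR i)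
      ?_ ?_ (ε / 4) (by positivity)
    · obtain ⟨h1, h2⟩ := hz0 i
      refine ⟨z0 i 0, z0 i 1, z0 i 2, ?_, h2⟩
      by_contra h3
      first
        | (rw [not_or, not_or] at h3
           apply h1
           funext l
           fin_cases l
           · exact not_not.1 h3.1
           · exact not_not.1 h3.2.1
           · exact not_not.1 h3.2.2)
        | (push Not at h3
           apply h1
           funext l
           fin_cases l
           · exact h3.1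
           · exact h3.2.1
           · exact h3.2.2)
    · intro p hpS
      obtain ⟨h1, h2⟩ := (hzp p ((hSm p).1 hpS)).2 i
      refine ⟨h1, ?_⟩
      rw [hcast ℚ_[(p : ℕ)], hcast ℚ_[(p : ℕ)], hcast ℚ_[(p : ℕ)]]
      exact h2
    · obtain ⟨h1, h2⟩ := hzR2 i
      refine ⟨h1, ?_⟩
      have hs1 : s ^ (e (i, 1) + 1) = s ^ (e (i, 0) + 1) := by rw [he i 1 0]
      have hs2 : s ^ (e (i, 2) + 1) = s ^ (e (i, 0) + 1) := by rw [he i 2 0]
      rw [hcast ℝ, hcast ℝ, hcast ℝ, hsc, hsc, hsc, hs1, hs2]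
      have h3 : s ^ (e (i, 0) + 1) * val (ic c ℝ (i, 0)) (fun i => (q i : ℝ) / s) * zR i 0 ^ 2 +
          s ^ (e (i, 0) + 1) * val (ic c ℝ (i, 1)) (fun i => (q i : ℝ) / s) * zR i 1 ^ 2 =
          s ^ (e (i, 0) + 1) * (val (ic c ℝ (i, 0)) (fun i => (q i : ℝ) / s) * zR i 0 ^ 2 +
            val (ic c ℝ (i, 1)) (fun i => (q i : ℝ) / s) * zR i 1 ^ 2) := by ring
      rw [h3, h2]
      ring
  choose z hz1 hz2 hz3 using key
  refine ⟨fun i => (q i : ℚ), z, hx0, fun i => ⟨(hz1 i).1, (hz1 i).2⟩, fun p hpm => ⟨?_, fun i => ?_⟩,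
    ?_, fun i => ?_⟩
  · refine ⟨1, one_ne_zero, fun j => ?_⟩
    rw [(hXZ p hpm).1, one_mul, one_mul, norm_sub_rev]
    have h1 := (hp p hpm).1 j
    have h2 : (((q j : ℚ)) : ℚ_[(p : ℕ)]) = ((q j : ℤ) : ℚ_[(p : ℕ)]) := by push_cast; rfl
    show ‖(((q j : ℚ)) : ℚ_[(p : ℕ)]) - X p j‖ ≤ 2 * ε
    rw [h2]
    linarith
  · exact near_trans hε hε2 (Z p i) (zp p i) _ ((hXZ p hpm).2 i) ((hzp p hpm).1 i)
      (hz2 i p ((hSm p).2 hpm))
  · refine ⟨1 / s, by positivity, fun j => ?_⟩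
    rw [hXR, one_mul, norm_sub_rev, Real.norm_eq_abs]
    have h1 := hRx j
    have h2 : 1 / s * (((q j : ℚ)) : ℝ) = (q j : ℝ) / s := by
      push_cast
      ring
    rw [h2]
    linarith
  · exact near_trans hε hε2 (ZR i) (zR i) _ (hZR i) (fun l => by
      rw [Real.norm_eq_abs]
      exact hzR1 i l) (hz3 i)

end Pool.Agent.N546.PN
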