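import Mathlib
import Pool.Agent.N718.DC.All
import Pool.Agent.N546.PW.Cwa
import Pool.Agent.N546.PN.All
import Pool.Agent.N546.PN.Stm3
import Pool.Agent.N546.PW.Det
import Pool.Agent.N546.PW.Mainw
import Pool.Agent.N126.PW.SQW
import Pool.Agent.N530.PW.Filw
import Pool.Agent.N262.PW.LOCW
import Pool.Agent.N402.PW.Realw
import Pool.Agent.N189.PW.Padw
import Pool.Agent.N607.PW.Nrm
import Pool.Agent.N546.PW.Gluw
import Pool.Agent.N136.PW.Linw

/-!
# Assembly of project PW (helper546)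
-/

set_option autoImplicit false

namespace Pool.Agent.N546.PN

theorem locw_real : S_LOCW ℝ :=
  Pool.Agent.N262.PW.locw_ ℝ Pool.Agent.N126.PW.sqw_real opn_real (Pool.Agent.N530.PW.filw_ ℝ)
theorem locw_padic (p : ℕ) [Fact p.Prime] : S_LOCW ℚ_[p] :=
  Pool.Agent.N262.PW.locw_ ℚ_[p] (Pool.Agent.N126.PW.sqw_padic p) (opn_padic p)
    (Pool.Agent.N530.PW.filw_ ℚ_[p])
theorem realw : S_REALW := Pool.Agent.N402.PW.realw_ del smr locw_real
theorem padw : S_PADW := Pool.Agent.N189.PW.padw_ del smp locw_padic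
theorem gluw : S_GLUW := gluw_ Pool.Agent.N546.PW.CWA.cwa_
theorem linw : S_LINW := Pool.Agent.N136.PW.linw_ push
theorem mainw : S_MAINW := mainw_ lin tail lsol cho padn realw padw linw gluw
  (fun n r e he m hm c h => Pool.Agent.N607.PW.nrm_ n r e he m hm c h) Pool.Agent.N718.DC.maina

end Pool.Agent.N546.PN
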