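import Mathlib
import Pool.Agent.N546.PN.Fin
import Pool.Agent.N546.PW.All

/-!
# Weak approximation for diagonal conic bundles over projective spaces: end of project PW (helper546)
-/

set_option autoImplicit false
set_option linter.all false

namespace Pool.Agent.N546.PN

open Finset Filter Topology

lemma ratio_tendsto (A B X : ℕ → ℝ) (hX : ∀ H, 0 < X H) (c₀ : ℝ) (hc₀ : 0 < c₀)
    (h1 : ∀ᶠ H in atTop, c₀ * X H ≤ B H) (h2 : ∀ H, A H ≤ B H)
    (h3 : ∀ η : ℝ, 0 < η → ∀ᶠ H in atTop, B H ≤ A H + η * X H) :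
    Tendsto (fun H => A H / B H) atTop (𝓝 1) := by
  rw [Metric.tendsto_atTop']
  intro ε hε
  obtain ⟨H₁, hH₁⟩ := eventually_atTop.1 (h1.and (h3 (c₀ * ε / 2) (by positivity)))
  refine ⟨H₁, fun H hH => ?_⟩
  obtain ⟨g1, g2⟩ := hH₁ H hH.le
  have hXH := hX H
  have hL : 0 < B H := lt_of_lt_of_le (by positivity) g1
  rw [Real.dist_eq, abs_sub_comm, abs_of_nonneg]
  · rw [sub_lt_comm, lt_div_iff₀ hL]
    have h7 : ε * (c₀ * X H) ≤ ε * B H := mul_le_mul_of_nonneg_left g1 hε.le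
    have h8 : 0 < c₀ * ε * X H := by positivity
    nlinarith
  · rw [sub_nonneg, div_le_one hL]
    exact h2 H

variable {n r : ℕ} {e : Fin r × Fin 3 → ℕ}

open Classical in
/-- The count for coefficient families. -/
theorem fin_countW (he : ∀ i l l', e (i, l) = e (i, l')) (hn : 2 ≤ n) (m : ℕ) (hm : 1 ≤ m) :
    Tendsto (fun H : ℕ =>
      (((bx n e H).filter (fun c => (∀ (K : Type) [Field K] [CharZero K], SmK (ic c K)) ∧
        ((∃ x z, IsP (ic c ℝ) x z) ∧ ∀ (p : ℕ) [Fact p.Prime], ∃ x z, IsP (ic c ℚ_[p]) x z) ∧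
          WAm m c)).card : ℝ) /
      (((bx n e H).filter (fun c => (∀ (K : Type) [Field K] [CharZero K], SmK (ic c K)) ∧
        ((∃ x z, IsP (ic c ℝ) x z) ∧ ∀ (p : ℕ) [Fact p.Prime], ∃ x z, IsP (ic c ℚ_[p]) x z))).card : ℝ))
      atTop (𝓝 1) := by
  have hpar : ∀ i l l', e (i, l) % 2 = e (i, l') % 2 := fun i l l' => by rw [he i l l']
  obtain ⟨⟨c₀, hc₀, hpos⟩, _⟩ := fin_count (n := n) (r := r) (e := e) hpar hn
  set T := typ3 e hpar un3 with hT
  set Sm : ((k : Fin r × Fin 3) → Mon n (e k + 1) → ℤ) → Prop :=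
    fun c => ∀ (K : Type) [Field K] [CharZero K], SmK (ic c K) with hSm
  set So : ((k : Fin r × Fin 3) → Mon n (e k + 1) → ℤ) → Prop :=
    fun c => ∀ (K : Type) [Field K] [CharZero K], Smo (ic c K) with hSo
  set LS : ((k : Fin r × Fin 3) → Mon n (e k + 1) → ℤ) → Prop :=
    fun c => (∃ x z, IsP (ic c ℝ) x z) ∧ ∀ (p : ℕ) [Fact p.Prime], ∃ x z, IsP (ic c ℚ_[p]) x z with hLS
  have a3 : ∀ c, So c → LS c → LocN T c := fun c h1 h2 =>
    ⟨pt_of_isP hpar sqo_real opn_real _ (h1 ℝ) h2.1, fun p hp =>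
      pt_of_isP hpar (sqo_padic p) (opn_padic p) _ (h1 ℚ_[p]) (h2.2 p)⟩
  have b1 : ∀ η : ℝ, 0 < η → ∀ᶠ H : ℕ in atTop,
      (((bx n e H).filter (fun c => ¬ So c)).card : ℝ) ≤ η * (bx n e H).card := by
    intro η hη
    obtain ⟨H₁, h1⟩ := smo n (Fin r × Fin 3) e η hη
    filter_upwards [eventually_ge_atTop H₁] with H hH
    rw [card_bx]
    convert h1 H hH
  have b2 : ∀ η : ℝ, 0 < η → ∀ᶠ H : ℕ in atTop,
      (((bx n e H).filter (fun c => LocN T c ∧ ¬ WAm m c)).card : ℝ) ≤ η * (bx n e H).card := by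
    intro η hη
    obtain ⟨H₁, h1⟩ := mainw n r e he un3 m hn hm η hη
    filter_upwards [eventually_ge_atTop H₁] with H hH
    rw [card_bx]
    convert h1 H hH
  refine ratio_tendsto _ _ (fun H => ((bx n e H).card : ℝ)) (fun H => ?_) c₀ hc₀ hpos
    (fun H => ?_) (fun η hη => ?_)
  · rw [card_bx]
    positivity
  · refine Nat.cast_le.2 (Finset.card_le_card ?_)
    intro c hc
    rw [Finset.mem_filter] at hc ⊢
    exact ⟨hc.1, hc.2.1, hc.2.2.1⟩
  · filter_upwards [b1 (η / 2) (by positivity), b2 (η / 2) (by positivity)] with H h1 h2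
    have hsub' : ((bx n e H).filter (fun c => Sm c ∧ LS c)) ⊆
        ((bx n e H).filter (fun c => Sm c ∧ LS c ∧ WAm m c)) ∪
          (((bx n e H).filter (fun c => ¬ So c)) ∪
          ((bx n e H).filter (fun c => LocN T c ∧ ¬ WAm m c))) := by
      intro c hc
      rw [Finset.mem_filter] at hc
      rw [Finset.mem_union, Finset.mem_union, Finset.mem_filter, Finset.mem_filter, Finset.mem_filter]
      by_cases g1 : WAm m c
      · exact Or.inl ⟨hc.1, hc.2.1, hc.2.2, g1⟩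
      · right
        by_cases g2 : So c
        · exact Or.inr ⟨hc.1, a3 c g2 hc.2.2, g1⟩
        · exact Or.inl ⟨hc.1, g2⟩
    have h5 : (((bx n e H).filter (fun c => Sm c ∧ LS c)).card : ℝ) ≤
        (((bx n e H).filter (fun c => Sm c ∧ LS c ∧ WAm m c)).card : ℝ) +
          ((((bx n e H).filter (fun c => ¬ So c)).card : ℝ) +
          (((bx n e H).filter (fun c => LocN T c ∧ ¬ WAm m c)).card : ℝ)) := by
      have h6 := (Finset.card_le_card hsub').trans ((Finset.card_union_le _ _).trans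
        (Nat.add_le_add_left (Finset.card_union_le _ _) _))
      exact_mod_cast h6
    have h7 : (((bx n e H).filter (fun c => Sm c ∧ LS c)).card : ℝ) ≤
        (((bx n e H).filter (fun c => Sm c ∧ LS c ∧ WAm m c)).card : ℝ) +
          η * ((bx n e H).card : ℝ) := by linarith
    exact h7

end Pool.Agent.N546.PN
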